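import Pool.Agent.Work.MP_890ea4_an.Main

set_option autoImplicit false

namespace Pool.Agent.Results.MP_890ea4_an.NullOrbitsCounterexample

open Pool.Agent.Work.MP_890ea4_an

/-- For `(m_n)` in the class `R`, the negated form of Q1 holds for `(m_n)`, even with a Banach space
`X` over `𝕜 = ℝ` or `ℂ`, if and only if `m_n / n` is unbounded (for example for `m_n = n²`). -/
theorem result (𝕜 : Type) [RCLike 𝕜] (m : ℕ → ℝ) (hm : InR m) :
    (∃ (X : Type) (_ : NormedAddCommGroup X) (_ : NormedSpace 𝕜 X) (_ : CompleteSpace X)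
      (T : X →L[𝕜] X), HasDenseNullOrbits T ∧ IsDistChaotic (fun n => (n : ℝ)) T ∧
        ¬ IsDistChaotic m T) ↔
      ∀ C : ℝ, ∃ n : ℕ, 1 ≤ n ∧ C * n < m n :=
  main_theorem 𝕜 m hm

end Pool.Agent.Results.MP_890ea4_an.NullOrbitsCounterexample
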